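import Mathlib
import Pool.Agent.V1168.UN.Mot

/-!
# Parshin's conjecture on rational K-theory for products with abelian varieties of almost all slope types
of all CM fields

Let `K i` (`i` in a finite set) be CM fields of degree `2 g i`. Nothing is assumed about their Galois
groups. They are pairwise independent: for `i ≠ k` and all complex embeddings `φ` of `K i` and `ψ` of
`K k` some automorphism of `ℂ` is the identity on `φ (K i)` and the complex conjugation on `ψ (K k)`
(this is no condition if there is only one field). We fix an isomorphism `ν` of the algebraic closure
of `ℚ_p` with `ℂ`; it defines a `p`-adic valuation of `ℂ`, with the value one at `p`. Let `M i` be a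
function with nonzero integral values, all of which divide `n i`, on the complex embeddings of
`K i`, invariant under complex conjugation. A CM type `Φ i` of `K i` (a choice of one element out of
each complex conjugate pair of embeddings; there are `2 ^ (g i)` types), `M i` and a real number
`κ ≠ 0` prescribe the slopes `(a + κ M) / 2` (at the embeddings in `Φ i`) and `(a - κ M) / 2` (outside
of `Φ i`) of a Weil number for `p ^ a` in `K i` (`HasType`). If `p` splits completely in `K i` then,
by Honda and Tate, all slopes with rational values between `0` and `a` that are symmetric in this way
occur for abelian varieties over finite fields. The case `M = 1`, `κ = a` is the case of ordinary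
abelian varieties; the assumption on `M` says that `a / 2` is not a slope. Slopes are rational, so
integral weights `M` are no restriction.

There are `2 ^ (∑ i, g i)` families of CM types `Φ i` of the fields `K i`. A family is exceptional
(`exceptionalFamilies ν K M`) if the following statement (`Holds`) is false for it. Let `π i` be Weil
numbers for `q = p ^ a` that generate the fields `K i` and have the slope types `Φ i`, `M i`, and let
`f i` be monic polynomials whose complex roots are conjugates of `π i` (`IsPolyOf`), for instance the
characteristic polynomials of Frobenius of the abelian varieties in the isogeny classes of the `π i`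
over the field with `q` elements. Let `A` be an abelian variety over the field with `Q = q ^ s`
elements which is isogenous to a product of powers of abelian varieties coming from the field with
`q` elements, with characteristic polynomials `f i`, and let `Z` be **any** smooth
projective variety over the field with `Q` elements such that

* the eigenvalues of Frobenius on the cohomology of `Z` and their conjugates are unrelated to the
  fields `K i`;
* homologically trivial self-correspondences of degree zero of `A × Z` are nilpotent, for instance
  the motive of `Z` is finite-dimensional in the sense of Kimura and O'Sullivan. This is known for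
  all varieties dominated by products of curves, and for their products with `A`.

A complex number `ρ ≠ 0` is unrelated to the fields `K i` (`Unrelated`) if a function `n` on the
complex embeddings of `K i` with `n (conj φ) = - n φ` which is invariant under all automorphisms of
`ℂ` that fix a power of `ρ` is zero. This is so if for each embedding `ψ` of `K i` some automorphism
which fixes a power of `ρ` is the complex conjugation on `ψ (K i)`: for instance, if a power of `ρ`
lies in a field linearly disjoint from the normal closures of the `K i`, or in a totally real field.
It is also so if the degree of `ρ` is less than twice the dimension of each nonzero space of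
functions `n` stable under all automorphisms of `ℂ` (less than `2 g i` if this representation is
irreducible, as it is for generic CM fields).

Then for every `m` **the group `K_m(A × Z) ⊗ ℚ` is zero if and only if `K_m(Z) ⊗ ℚ` is zero.** More
precisely there are finitely many products `D j` of `deg j` divisors on `A` such that
`K_m(A × Z)^(i) = ⨁ D j × K_m(Z)^(i - deg j)` for all `m` and `i`, where `K_m(X)^(i)` is the part of
`K_m(X) ⊗ ℚ` on which the Adams operation `ψ^k` is multiplication by `k ^ i`. In particular the
conjecture of Parshin holds for `A` (`Z = Spec k`), for `A × C` for all curves `C` with unrelated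
eigenvalues, and for `A × Z` if it holds for `Z`. The Frobenius endomorphism of `A × Z` acts on
`K_m(A × Z)^(i)` as multiplication by `Q ^ i` (`ActsAsPower`).

The framework (`TheoryData`, `IsChow`, `IsWeil`) is the one of helper492: the Chow groups `C` with
their pull-backs, push-forwards and products, and a Weil cohomology theory `H` with coefficients in
an algebraically closed field, on a class `𝒱` of smooth proper varieties over `k`. The `K`-groups are theories on
which correspondences act (`MotivicData`, `IsRationalKGroup`).

The theorem bounds the number of the exceptional families: it is at most
`2 ^ (∑ i, g i) * ∑ i, C * (n i) ^ 2 * rate (K i) (g i) (q i)`, with an absolute constant `C`. Here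
`q i` is any prime factor of `g i` (or `q i = 1`), and `rate K g q` is `(1 + log (2 g)) ^ 16` times
the smaller of the numbers `W (K) / √g` and `√g / q`; the second part of the theorem
(`WeightEstimate`) is `W (K) ≤ N ^ 2 * D ^ (1 / 4)`, where `N` is the number of the CM subfields of `K`
(with `K`) and `D` is the largest degree of a CM subfield of `K` that is normal over `ℚ` with a
nonabelian Galois group (`D = 1` if there are none). So the exceptional types are a proportion
`O (n ^ 2 * g ^ (-1 / 4) * (log g) ^ 16)` of all types of all CM fields with a bounded number of CM
subfields. The number `W (K)` (`subfieldWeight K`) is the sum over the fields of definition `F` of the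
isotypic components of the space of the odd functions on the complex embeddings of `K` of the number
of the CM subfields of `F`, multiplied by `[F : ℚ] ^ (1 / 4)` if `F` is normal over `ℚ` and its Galois
group is not abelian.

The proof. The bound for the number of the degenerate types is the one of the starting files
(`AllCMFields`, MP_e12fcd_ag, and `Y1.CT.ncard_of_unrel`): if the types are not degenerate, then a
product of `ρ` and of some eigenvalues of `A`, no two of them complex conjugate, is not a power of `q`,
up to a root of unity, for all unrelated `ρ`.
The generalized eigenvectors of Frobenius in the cohomology of `A × Z` for the eigenvalues `Q ^ i` are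
therefore sums of products of classes of products of divisors on `A` and of classes on `Z`. Let `p`
be the projector given by dual systems of products of divisors on `A`, and `P` a polynomial killing
all the other eigenvalues and with `P (Q ^ i) = 1`. The correspondence `(1 - p) P (F)` is
homologically trivial, hence nilpotent; as it acts on the part of weight `i` as the idempotent
`1 - p`, this idempotent is zero. (The idea to play the eigenvalues of Frobenius off against
nilpotence is due to Soule, Geisser and Kahn.)
-/

set_option autoImplicit false

namespace Pool.Agent.Results.MP_27fd67_ag.AllCMTypesTimes

open NumberField Module Pool.Agent.H204R3.CM Pool.Agent.H977R3.CM Pool.Agent.TH170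
  Pool.Agent.Y1.KN Pool.Agent.Y1.CT Pool.Agent.V1168.UN

/-- The reduction of the conjecture of Parshin for `A × Z` to the one for `Z`, for each group `K_m`, holds
for all abelian varieties `A` whose Frobenius eigenvalues are powers of conjugates of Weil numbers
with the slope types `Φ i`, `M i`, and all `Z` unrelated to the fields `K i`. -/
def Holds {p : ℕ} [Fact p.Prime] (ν : PadicAlgCl p ≃+* ℂ) {I : Type} (K : I → Type)
    [∀ i, Field (K i)] [∀ i, NumberField (K i)] [∀ i, IsCMField (K i)]
    (M : ∀ i, (K i →+* ℂ) → ℤ) (Φ : ∀ i, Set (K i →+* ℂ)) : Prop :=
  ForAllTypes ν K M (KGroupsUnrel K) Φ

/-- The exceptional families of CM types. -/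
def exceptionalFamilies {p : ℕ} [Fact p.Prime] (ν : PadicAlgCl p ≃+* ℂ) {I : Type} (K : I → Type)
    [∀ i, Field (K i)] [∀ i, NumberField (K i)] [∀ i, IsCMField (K i)]
    (M : ∀ i, (K i →+* ℂ) → ℤ) : Set (∀ i, Set (K i →+* ℂ)) :=
  {Φ | (∀ i, IsCMType (Φ i)) ∧ ¬ Holds ν K M Φ}

/-- **The group `K_m(A × Z) ⊗ ℚ` is zero if and only if `K_m(Z) ⊗ ℚ` is zero, for the abelian varieties
`A` of almost all slope types of all CM fields and all unrelated `Z`.** -/
theorem result :
    (∃ C : ℝ, 0 ≤ C ∧ ∀ (p : ℕ) [Fact p.Prime] (ν : PadicAlgCl p ≃+* ℂ) (I : Type) [Fintype I]
      (K : I → Type) [∀ i, Field (K i)] [∀ i, NumberField (K i)] [∀ i, IsCMField (K i)]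
      (M : ∀ i, (K i →+* ℂ) → ℤ) (n g q : I → ℕ), PairwiseIndep K →
      (∀ i φ, M i (ComplexEmbedding.conjugate φ) = M i φ) → (∀ i, n i ≠ 0) →
      (∀ i φ, M i φ ∣ (n i : ℤ)) → (∀ i, finrank ℚ (K i) = 2 * g i) →
      (∀ i, q i ∣ g i ∧ (q i = 1 ∨ (q i).Prime)) →
      ((exceptionalFamilies ν K M).ncard : ℝ) ≤
        2 ^ (∑ i, g i) * ∑ i, C * (n i : ℝ) ^ 2 * rate (K i) (g i) (q i)) ∧
    WeightEstimate := by
  obtain ⟨C, hC0, hC⟩ := ncard_of_unrel
  refine ⟨⟨C, hC0, ?_⟩, weight_estimate_holds⟩
  intro p _ ν I _ K _ _ _ M n g q hind hM hn hMn hg hq
  exact hC p ν I K M n g q hind hM hn hMn hg hq _ fun Q f hQ hR => kGroupsUnrel hQ hR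

end Pool.Agent.Results.MP_27fd67_ag.AllCMTypesTimes
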