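import Pool.Agent.V1157.GK.Main

/-!
# Parshin's conjecture and ranks of the Galois group algebra

Let `k` be an algebraic closure of the finite field `F` with `q` elements, `G` the Galois group of
`k` over `F`, fix `m ≥ 1` and a dimension `n`, and let `f` be any non-zero element of the group
algebra `ℚ[G]`. If the dimension of `f K_m(X_k)_ℚ` is at most `D`, for all `X` over `F` of dimension
`n`, then `K_m(X_k)_ℚ = 0` for all these `X`. For `f = 1` the hypothesis is that the dimension of
`K_m(X_k)_ℚ` is at most `D`; for `f = 1 - g`, `g` the `s`-th power of Frobenius, that the dimension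
of `K_m(X_k)_ℚ / K_m(X_{F_s})_ℚ` is at most `D`, `F_s` the field with `q^s` elements.

Proof: let `t ∈ K_m(S_k)_ℚ`. Choose `h₀` in the support of `f` and a subgroup `U` of finite index
containing no `h⁻¹ h₀`, `h ≠ h₀` in the support. Let `V` over `F` be a complete intersection, of
dimension `n`, in the restriction of scalars of `S^(D+1)` from the fixed field of `U`; it has
projections `p i j : V ⟶ S` over `k`, `i ∈ G/U`, `j ≤ D`, which are permuted by `G`. Put
`t_j = (p 1 j)^* t`. If `∑ c_j f t_j = 0` then its push-forward by `p h₀ j` is zero. But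
`(p h₀ j)_* h t_j' = h (p (h⁻¹ h₀) j)_* (p 1 j')^* t` is zero unless `h = h₀` and `j' = j` (it is
given by a correspondence which factors through the point, and `K_m(k)_ℚ = 0`), and in this case
it is a non-zero multiple of `h₀ t`.
-/

open CategoryTheory AlgebraicGeometry

universe u v w x y z

namespace Pool.Agent.Results.MP_27fd67_ag.GroupAlgebraRanks

open Pool.Agent.H914 Pool.Agent.H914.VarClass Pool.Agent.H914.VarClass.Obj Pool.Agent.W492.BB
  Pool.Agent.TH133 Pool.Agent.V1157.GA Pool.Agent.V1157.GK

theorem result {k : Type u} [Field k] {𝒱 : VarClass k} {C : TheoryData.{u, v, 0} 𝒱 ℚ}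
    [IsChowProj C] {G : Type x} [Group G] {R : Forms.{u, v, 0, x, y} G C}
    {P : KData.{u, v, z} C} (hPK : IsK P) (E : KAct R P) (hE : IsGaloisK E) (n : ℕ)
    (hP : HasTwistedPowers R C n) (f : G →₀ ℚ) (hf : f ≠ 0) :
    Vanishes R P n ↔ ∃ D, RankAtMost E n f D :=
  ⟨fun h => ⟨0, rank_of_vanishes h f⟩, fun ⟨_, hD⟩ => vanishes_of_rank hPK hE hP hf hD⟩

end Pool.Agent.Results.MP_27fd67_ag.GroupAlgebraRanks
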